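import Pool.Agent.Q276.CN.Stm

/-! Project CN, job WNN: membership in the finite set of reduced forms, and the weights are nonnegative. -/

set_option autoImplicit false

open scoped Real

namespace Pool.Agent.Q54.CN

open Pool.Agent.Q276.CN

theorem mem : StmtMEM := by
  classical
  intro D t
  obtain ⟨a, b, c⟩ := t
  unfold redF
  rw [Finset.mem_filter]
  refine ⟨fun h => h.2, fun h => ⟨?_, h⟩⟩
  obtain ⟨⟨h1, -⟩, hb, hac, -⟩ := h
  simp only at h1 hb hac
  have ha0 : a ≠ 0 := by rintro rfl; simp at hac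
  have hc0 : c ≠ 0 := by rintro rfl; simp at hac
  have ha1 : 1 ≤ |a| := Int.one_le_abs ha0
  have hc1 : 1 ≤ |c| := Int.one_le_abs hc0
  have hm : |a| * |c| = -(a * c) := by rw [← abs_mul, abs_of_neg hac]
  have hbb : b ≤ D := by nlinarith
  have haD : |a| ≤ D := by nlinarith
  have hcD : |c| ≤ D := by nlinarith
  simp only [Finset.mem_product, Finset.mem_Icc]
  exact ⟨abs_le.1 haD, ⟨by omega, hbb⟩, abs_le.1 hcD⟩

theorem wnn : StmtWNN := by
  intro D t hp hr
  obtain ⟨a, b, c⟩ := t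
  obtain ⟨h1, -⟩ := hp
  obtain ⟨hb, hac, habs⟩ := hr
  simp only at h1 hb hac habs
  have hc0 : c ≠ 0 := by rintro rfl; simp at hac
  have hsq : (2 * |c| - b) ^ 2 ≤ (D : ℤ) := by
    obtain ⟨h2, h3⟩ := abs_lt.1 habs
    rcases lt_or_gt_of_ne hc0 with hc | hc
    · rw [abs_of_neg hc]
      nlinarith
    · rw [abs_of_pos hc]
      nlinarith
  have hsqR : (2 * |(c : ℝ)| - b) ^ 2 ≤ (D : ℝ) := by
    have := (Int.cast_le (R := ℝ)).2 hsq
    push_cast at this
    exact this
  have hle : 2 * |(c : ℝ)| - b ≤ √(D : ℝ) := (le_abs_self _).trans (Real.abs_le_sqrt hsqR)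
  have hcp : 0 < |(c : ℝ)| := abs_pos.2 (by exact_mod_cast hc0)
  unfold wt
  apply Real.log_nonneg
  rw [le_div_iff₀ (by positivity)]
  simp only
  linarith

end Pool.Agent.Q54.CN
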